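import Pool.Agent.W2helper32.BK.Defs

set_option autoImplicit false

/-! If every point of a bounded set `K` lies in at most one diameter then `(K, D(K))` is
general. -/

namespace Pool.Agent.W2helper32.BK

open Metric

theorem matching_general {d : ℕ} (K : Set (E d)) (hb : Bornology.IsBounded K)
    (hn : K.Nontrivial)
    (hu : ∀ x ∈ K, ∀ y ∈ K, ∀ z ∈ K, dist x y = diam K → dist x z = diam K → y = z) :
    IsGeneral K (Diameters K) := by
  classical
  set D := diam K with hD
  have hD0 : 0 < D := by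
    obtain ⟨x, hx, y, hy, hxy⟩ := hn
    exact lt_of_lt_of_le (dist_pos.2 hxy) (dist_le_diam_of_mem hb hx hy)
  set p : E d → E d := fun z =>
    if h : ∃ w ∈ K, dist z w = D ∧ WellOrderingRel w z then h.choose else z with hp
  have hps : ∀ z, p z = z ∨ (p z ∈ K ∧ dist z (p z) = D ∧ WellOrderingRel (p z) z) := by
    intro z
    by_cases h : ∃ w ∈ K, dist z w = D ∧ WellOrderingRel w z
    · right
      simp only [hp, dif_pos h]
      exact h.choose_spec
    · left
      simp only [hp, dif_neg h]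
  have hp1 : ∀ z ∈ K, ∀ w ∈ K, dist z w = D → WellOrderingRel w z → p z = w := by
    intro z hz w hw hzw hr
    have h : ∃ w ∈ K, dist z w = D ∧ WellOrderingRel w z := ⟨w, hw, hzw, hr⟩
    simp only [hp, dif_pos h]
    exact hu z hz _ h.choose_spec.1 w hw h.choose_spec.2.1 hzw
  have hp2 : ∀ z ∈ K, ∀ w ∈ K, dist z w = D → ¬ WellOrderingRel w z → p z = z := by
    intro z hz w hw hzw hr
    rcases hps z with h | ⟨h1, h2, h3⟩
    · exact h
    · exact absurd (hu z hz _ h1 w hw h2 hzw ▸ h3) hr
  have hmem : ∀ z ∈ K, p z ≠ z → s(p z, z) ∈ Diameters K := by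
    intro z hz h
    rcases hps z with h' | ⟨h1, h2, h3⟩
    · exact absurd h' h
    · exact ⟨p z, h1, z, hz, h, by rw [dist_comm]; exact h2, rfl⟩
  have hnorm : ∀ z ∈ K, p z ≠ z → ‖z - p z‖ = D := by
    intro z hz h
    rcases hps z with h' | ⟨h1, h2, h3⟩
    · exact absurd h' h
    · rw [← dist_eq_norm]; exact h2
  refine ⟨D, hD0, fun δ hδ0 hδ1 hδc => ?_⟩
  refine ⟨fun t z => z + (δ t s(p z, z) / D) • (z - p z), ?_, ?_, ?_⟩
  · intro z hz
    by_cases h : p z = z
    · simp [h]
    · simp [hδ0 _ (hmem z hz h)]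
  · intro t ht η hη
    obtain ⟨ρ, hρ, h⟩ := hδc t ht η hη
    refine ⟨ρ, hρ, fun u hu' hut z hz => ?_⟩
    by_cases hz' : p z = z
    · simp [hz', hη.le]
    · rw [dist_eq_norm, add_sub_add_left_eq_sub, ← sub_smul, ← sub_div, norm_smul,
        hnorm z hz hz', norm_div, Real.norm_of_nonneg hD0.le, div_mul_cancel₀ _ hD0.ne']
      exact h u hu' hut _ (hmem z hz hz')
  · intro t ht x hx y hy hxy
    have hdxy : dist x y = D ∧ x ≠ y := by
      obtain ⟨a, _, b, _, hne, hab, heq⟩ := hxy
      rcases Sym2.eq_iff.1 heq with ⟨rfl, rfl⟩ | ⟨rfl, rfl⟩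
      · exact ⟨hab, hne⟩
      · exact ⟨by rw [dist_comm]; exact hab, hne.symm⟩
    have key : ∀ x ∈ K, ∀ y ∈ K, dist x y = D → WellOrderingRel x y →
        dist (x + (δ t s(p x, x) / D) • (x - p x)) (y + (δ t s(p y, y) / D) • (y - p y)) =
          D + δ t s(x, y) := by
      intro x hx y hy hxy hr
      have h1 : p y = x := hp1 y hy x hx (by rw [dist_comm]; exact hxy) hr
      have h2 : p x = x := hp2 x hx y hy hxy (fun h => (asymm hr h))
      have hxy' : s(x, y) ∈ Diameters K :=
        ⟨x, hx, y, hy, fun h => by rw [h, dist_self] at hxy; linarith, hxy, rfl⟩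
      rw [h1, h2, sub_self, smul_zero, add_zero]
      obtain ⟨c, hc, hc'⟩ := hδ1 t ht
      have h3 := hc' _ hxy'
      have h4 : -D ≤ δ t s(x, y) := by
        have := (abs_le.1 h3).1; linarith
      have h5 : y + (δ t s(x, y) / D) • (y - x) - x = (1 + δ t s(x, y) / D) • (y - x) := by
        rw [add_smul, one_smul]; abel
      have h6 : 0 ≤ 1 + δ t s(x, y) / D := by
        have : -1 ≤ δ t s(x, y) / D := by
          rw [le_div_iff₀ hD0]; linarith
        linarith
      rw [dist_comm, dist_eq_norm, h5, norm_smul, ← dist_eq_norm, dist_comm, hxy,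
        Real.norm_of_nonneg h6]
      field_simp
    rw [hdxy.1]
    rcases trichotomous_of WellOrderingRel x y with h | h | h
    · exact key x hx y hy hdxy.1 h
    · exact absurd h hdxy.2
    · rw [dist_comm, Sym2.eq_swap]
      exact key y hy x hx (by rw [dist_comm]; exact hdxy.1) h

end Pool.Agent.W2helper32.BK
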