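import Pool.Agent.W2helper32.BK.Defs

set_option autoImplicit false

namespace Pool.Agent.W2helper32.BK

open Metric

variable {d : ℕ}

/-- height of the second layer -/
noncomputable def hh : ℝ := Real.sqrt 7 / 4

theorem hh_sq : hh ^ 2 = 7 / 16 := by
  unfold hh; rw [div_pow, Real.sq_sqrt (by norm_num)]; norm_num

theorem hh_pos : 0 < hh := by unfold hh; positivity

/-- the partner of a point -/
noncomputable def par (e x : E d) : E d := (-(1 / 4 : ℝ)) • x + hh • e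

/-- the inverse map -/
noncomputable def unpar (e y : E d) : E d := (-(4 : ℝ)) • (y - hh • e)

theorem unpar_par (e x : E d) : unpar e (par e x) = x := by
  unfold unpar par
  rw [add_sub_cancel_right, smul_smul]; norm_num

section
variable {e : E d} {S : Set (E d)} (he : inner ℝ e e = (1 : ℝ))
  (h1 : ∀ x ∈ S, inner ℝ x x = (1 : ℝ)) (h0 : ∀ x ∈ S, inner ℝ x e = (0 : ℝ))
  (hp : ∀ x ∈ S, ∀ y ∈ S, (0 : ℝ) < inner ℝ x y)

include h1 in
theorem dist_sq_xx {x y : E d} (hx : x ∈ S) (hy : y ∈ S) :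
    dist x y ^ 2 = 2 - 2 * inner ℝ x y := by
  rw [dist_eq_norm, ← real_inner_self_eq_norm_sq, inner_sub_left, inner_sub_right,
    inner_sub_right, h1 x hx, h1 y hy, real_inner_comm x y]
  ring

include he h1 h0 in
theorem dist_sq_xp {x y : E d} (hx : x ∈ S) (hy : y ∈ S) :
    dist x (par e y) ^ 2 = 3 / 2 + inner ℝ x y / 2 := by
  have hye : inner ℝ e y = (0 : ℝ) := by rw [real_inner_comm]; exact h0 y hy
  rw [dist_eq_norm, ← real_inner_self_eq_norm_sq, par]
  simp only [inner_sub_left, inner_sub_right, inner_add_left, inner_add_right,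
    real_inner_smul_left, real_inner_smul_right, he, h1 x hx, h1 y hy, h0 x hx, h0 y hy, hye]
  rw [real_inner_comm x e, h0 x hx, real_inner_comm x y]
  have := hh_sq
  nlinarith

include h1 in
theorem dist_sq_pp {x y : E d} (hx : x ∈ S) (hy : y ∈ S) :
    dist (par e x) (par e y) ^ 2 = (2 - 2 * inner ℝ x y) / 16 := by
  have : par e x - par e y = (-(1 / 4 : ℝ)) • (x - y) := by
    unfold par; rw [smul_sub]; abel
  rw [dist_eq_norm, this, norm_smul, mul_pow, ← dist_eq_norm, dist_sq_xx h1 hx hy]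
  norm_num
  ring

include h1 in
theorem inner_le {x y : E d} (hx : x ∈ S) (hy : y ∈ S) : inner ℝ x y ≤ (1 : ℝ) := by
  have := dist_sq_xx h1 hx hy
  nlinarith [sq_nonneg (dist x y)]

include h1 in
theorem eq_of_inner {x y : E d} (hx : x ∈ S) (hy : y ∈ S) (h : inner ℝ x y = (1 : ℝ)) :
    x = y := by
  have := dist_sq_xx h1 hx hy
  rw [h] at this
  have h2 : dist x y ^ 2 = 0 := by rw [this]; ring
  exact dist_eq_zero.1 (pow_eq_zero_iff (two_ne_zero) |>.1 h2)

/-- The set. -/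
def KK (e : E d) (S : Set (E d)) : Set (E d) := S ∪ par e '' S

theorem le_sqrt2 {a : ℝ} (h : a ^ 2 ≤ 2) : a ≤ Real.sqrt 2 := Real.le_sqrt_of_sq_le h

theorem lt_sqrt2 {a : ℝ} (h : a ^ 2 < 2) : a < Real.sqrt 2 := Real.lt_sqrt_of_sq_lt h

theorem eq_sqrt2 {a : ℝ} (ha : 0 ≤ a) : a = Real.sqrt 2 ↔ a ^ 2 = 2 := by
  constructor
  · rintro rfl; exact Real.sq_sqrt (by norm_num)
  · intro h; rw [← h, Real.sqrt_sq ha]

include he h1 h0 hp

/-- pairs at distance `√2`. -/
theorem pairs {x y : E d} (hx : x ∈ KK e S) (hy : y ∈ KK e S) :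
    dist x y ≤ Real.sqrt 2 ∧
      (dist x y = Real.sqrt 2 → (x ∈ S ∧ y = par e x) ∨ (y ∈ S ∧ x = par e y)) := by
  rcases hx with hx | ⟨x, hx, rfl⟩ <;> rcases hy with hy | ⟨y, hy, rfl⟩
  · have h := dist_sq_xx h1 hx hy
    have h3 := hp x hx y hy
    have h4 : dist x y < Real.sqrt 2 := lt_sqrt2 (by linarith)
    exact ⟨h4.le, fun h => absurd h h4.ne⟩
  · have h := dist_sq_xp he h1 h0 hx hy
    have h3 := inner_le h1 hx hy
    refine ⟨le_sqrt2 (by linarith), fun h4 => Or.inl ⟨hx, ?_⟩⟩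
    rw [eq_sqrt2 dist_nonneg, h] at h4
    rw [eq_of_inner h1 hx hy (by linarith)]
  · have h := dist_sq_xp he h1 h0 hy hx
    rw [dist_comm] at h
    have h3 := inner_le h1 hy hx
    refine ⟨le_sqrt2 (by linarith), fun h4 => Or.inr ⟨hy, ?_⟩⟩
    rw [eq_sqrt2 dist_nonneg, h] at h4
    rw [eq_of_inner h1 hy hx (by linarith)]
  · have h := dist_sq_pp (e := e) h1 hx hy
    have h3 := hp x hx y hy
    have h4 : dist (par e x) (par e y) < Real.sqrt 2 := lt_sqrt2 (by linarith)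
    exact ⟨h4.le, fun h => absurd h h4.ne⟩

theorem dist_par {x : E d} (hx : x ∈ S) : dist x (par e x) = Real.sqrt 2 := by
  rw [eq_sqrt2 dist_nonneg, dist_sq_xp he h1 h0 hx hx, h1 x hx]; norm_num

theorem bdd : Bornology.IsBounded (KK e S) :=
  isBounded_iff.2 ⟨Real.sqrt 2, fun _ hx _ hy => (pairs he h1 h0 hp hx hy).1⟩

theorem diam_eq (hne : S.Nonempty) : diam (KK e S) = Real.sqrt 2 := by
  refine le_antisymm (diam_le_of_forall_dist_le (Real.sqrt_nonneg _)
    fun x hx y hy => (pairs he h1 h0 hp hx hy).1) ?_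
  obtain ⟨x, hx⟩ := hne
  rw [← dist_par he h1 h0 hp hx]
  exact dist_le_diam_of_mem (bdd he h1 h0 hp) (Or.inl hx) (Or.inr ⟨x, hx, rfl⟩)

theorem not_both {x : E d} (hx : x ∈ S) : par e x ∉ S := by
  intro h
  have h2 := h0 _ h
  unfold par at h2
  rw [inner_add_left, real_inner_smul_left, real_inner_smul_left, h0 x hx, he] at h2
  have := hh_pos
  linarith

theorem unique_partner (hne : S.Nonempty) : ∀ x ∈ KK e S, ∃! y, y ∈ KK e S ∧
    dist x y = diam (KK e S) := by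
  rw [diam_eq he h1 h0 hp hne]
  intro x hx
  rcases hx with hx | ⟨x, hx, rfl⟩
  · refine ⟨par e x, ⟨Or.inr ⟨x, hx, rfl⟩, dist_par he h1 h0 hp hx⟩, ?_⟩
    rintro y ⟨hy, hxy⟩
    rcases (pairs he h1 h0 hp (Or.inl hx) hy).2 hxy with h | h
    · exact h.2
    · exact absurd (h.2 ▸ hx) (not_both he h1 h0 hp h.1)
  · refine ⟨x, ⟨Or.inl hx, by rw [dist_comm]; exact dist_par he h1 h0 hp hx⟩, ?_⟩
    rintro y ⟨hy, hxy⟩
    rcases (pairs he h1 h0 hp (Or.inr ⟨x, hx, rfl⟩) hy).2 hxy with h | h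
    · exact absurd h.1 (not_both he h1 h0 hp hx)
    · rw [← unpar_par e x, h.2, unpar_par]

theorem general (hne : S.Nonempty) : IsGeneral (KK e S) (Diameters (KK e S)) := by
  classical
  refine ⟨1, one_pos, fun δ hδ0 hδ1 hδc => ?_⟩
  have hs2 : 0 < Real.sqrt 2 := by positivity
  have hs1 : 1 < Real.sqrt 2 := by
    rw [Real.lt_sqrt (by norm_num)]; norm_num
  have hmem : ∀ x ∈ S, s(x, par e x) ∈ Diameters (KK e S) := by
    intro x hx
    refine ⟨x, Or.inl hx, par e x, Or.inr ⟨x, hx, rfl⟩, ?_, ?_, rfl⟩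
    · intro h
      exact not_both he h1 h0 hp hx (h ▸ hx)
    · rw [dist_par he h1 h0 hp hx, diam_eq he h1 h0 hp hne]
  set φ : ℝ → E d → E d := fun t z => if z ∈ par e '' S then
    z + (δ t s(unpar e z, z) / Real.sqrt 2) • (z - unpar e z) else z with hφ
  have hφp : ∀ t, ∀ x ∈ S, φ t (par e x) =
      par e x + (δ t s(x, par e x) / Real.sqrt 2) • (par e x - x) := by
    intro t x hx
    simp only [hφ]
    rw [if_pos ⟨x, hx, rfl⟩, unpar_par]
  have hφx : ∀ t, ∀ x ∈ S, φ t x = x := by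
    intro t x hx
    simp only [hφ]
    rw [if_neg]
    rintro ⟨y, hy, h⟩
    exact not_both he h1 h0 hp hy (h ▸ hx)
  have hnorm : ∀ x ∈ S, ‖par e x - x‖ = Real.sqrt 2 := by
    intro x hx
    rw [← dist_eq_norm, dist_comm]; exact dist_par he h1 h0 hp hx
  have key : ∀ t ∈ Set.Ico (0 : ℝ) 1, ∀ x ∈ S,
      dist (φ t x) (φ t (par e x)) = Real.sqrt 2 + δ t s(x, par e x) := by
    intro t ht x hx
    obtain ⟨c, hc, hc'⟩ := hδ1 t ht
    have h3 := hc' _ (hmem x hx)
    have h4 : -1 < δ t s(x, par e x) := by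
      have := (abs_le.1 h3).1; linarith
    rw [hφx t x hx, hφp t x hx, dist_comm, dist_eq_norm]
    have h5 : par e x + (δ t s(x, par e x) / Real.sqrt 2) • (par e x - x) - x =
        (1 + δ t s(x, par e x) / Real.sqrt 2) • (par e x - x) := by
      rw [add_smul, one_smul]; abel
    have h6 : 0 ≤ 1 + δ t s(x, par e x) / Real.sqrt 2 := by
      have : -1 ≤ δ t s(x, par e x) / Real.sqrt 2 := by
        rw [le_div_iff₀ hs2]; linarith
      linarith
    rw [h5, norm_smul, hnorm x hx, Real.norm_of_nonneg h6]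
    field_simp
  refine ⟨φ, ?_, ?_, ?_⟩
  · rintro z (hz | ⟨x, hx, rfl⟩)
    · exact hφx 0 z hz
    · rw [hφp 0 x hx, hδ0 _ (hmem x hx)]; simp
  · intro t ht η hη
    obtain ⟨ρ, hρ, h⟩ := hδc t ht η hη
    refine ⟨ρ, hρ, fun u hu hut => ?_⟩
    rintro z (hz | ⟨x, hx, rfl⟩)
    · rw [hφx u z hz, hφx t z hz, dist_self]; exact hη.le
    · rw [hφp u x hx, hφp t x hx, dist_eq_norm, add_sub_add_left_eq_sub, ← sub_smul, ← sub_div,
        norm_smul, hnorm x hx, norm_div, Real.norm_of_nonneg hs2.le, div_mul_cancel₀ _ hs2.ne']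
      exact h u hu hut _ (hmem x hx)
  · intro t ht x hx y hy hxy
    have hdxy : dist x y = Real.sqrt 2 := by
      obtain ⟨a, _, b, _, _, hab, heq⟩ := hxy
      rw [diam_eq he h1 h0 hp hne] at hab
      rcases Sym2.eq_iff.1 heq with ⟨rfl, rfl⟩ | ⟨rfl, rfl⟩
      · exact hab
      · rw [dist_comm]; exact hab
    rw [hdxy]
    rcases (pairs he h1 h0 hp hx hy).2 hdxy with ⟨h2, rfl⟩ | ⟨h2, rfl⟩
    · exact key t ht x h2
    · rw [dist_comm, key t ht y h2, Sym2.eq_swap]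

theorem not_partitionable (m : ℕ) (hne : S.Nonempty)
    (hc : ∀ c : E d → Fin m, ∃ l, ∀ ε > 0, ∃ x ∈ S, ∃ y ∈ S, c x = l ∧ c y = l ∧
      inner ℝ x y < ε) : ¬ Partitionable (KK e S) m := by
  classical
  rintro ⟨P, hP, -, hd⟩
  rw [diam_eq he h1 h0 hp hne] at hd
  have hmem : ∀ x ∈ S, ∃ l, x ∈ P l := by
    intro x hx
    have : x ∈ ⋃ i, P i := by rw [hP]; exact Or.inl hx
    simpa using this
  obtain ⟨x0, hx0⟩ := hne
  obtain ⟨l0, -⟩ := hmem x0 hx0
  set c : E d → Fin m := fun x => if h : ∃ l, x ∈ P l then h.choose else l0 with hcdef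
  have hcs : ∀ x ∈ S, x ∈ P (c x) := by
    intro x hx
    have h := hmem x hx
    simp only [hcdef, dif_pos h]
    exact h.choose_spec
  obtain ⟨l, hl⟩ := hc c
  have hlt := hd l
  have hbP : Bornology.IsBounded (P l) :=
    (bdd he h1 h0 hp).subset (by rw [← hP]; exact Set.subset_iUnion P l)
  have hpos : 0 < 2 - diam (P l) ^ 2 := by
    have h2 : diam (P l) ^ 2 < Real.sqrt 2 ^ 2 := pow_lt_pow_left₀ hlt diam_nonneg two_ne_zero
    rw [Real.sq_sqrt (by norm_num)] at h2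
    linarith
  obtain ⟨x, hx, y, hy, hcx, hcy, hxy⟩ := hl ((2 - diam (P l) ^ 2) / 2) (by linarith)
  have h3 : dist x y ≤ diam (P l) :=
    dist_le_diam_of_mem hbP (hcx ▸ hcs x hx) (hcy ▸ hcs y hy)
  have h4 := dist_sq_xx h1 hx hy
  have h5 : dist x y ^ 2 ≤ diam (P l) ^ 2 := pow_le_pow_left₀ dist_nonneg h3 2
  linarith

end

end Pool.Agent.W2helper32.BK
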