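import Mathlib

set_option autoImplicit false

/-! Definitions for MP_701da7_co (Borsuk partitions for generic diameter configurations). -/

namespace Pool.Agent.W2helper32.BK

/-- Euclidean space `ℝ^d`. -/
abbrev E (d : ℕ) : Type := EuclideanSpace ℝ (Fin d)

/-- The set `D(K)` of the diameters of `K`: unordered pairs of points of `K` at distance
`diam K`. -/
def Diameters {d : ℕ} (K : Set (E d)) : Set (Sym2 (E d)) :=
  {a | ∃ x ∈ K, ∃ y ∈ K, x ≠ y ∧ dist x y = Metric.diam K ∧ a = s(x, y)}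

/-- `(K, A)` is general: every small sup-norm continuous deformation `δ t`, `0 ≤ t < 1`, of the
distances on `A` is realised by a sup-norm continuous deformation `φ t` of `K`. -/
def IsGeneral {d : ℕ} (K : Set (E d)) (A : Set (Sym2 (E d))) : Prop :=
  ∃ ε : ℝ, 0 < ε ∧ ∀ δ : ℝ → Sym2 (E d) → ℝ,
    (∀ a ∈ A, δ 0 a = 0) →
    (∀ t ∈ Set.Ico (0 : ℝ) 1, ∃ c < ε, ∀ a ∈ A, |δ t a| ≤ c) →
    (∀ t ∈ Set.Ico (0 : ℝ) 1, ∀ η > 0, ∃ ρ > 0, ∀ u ∈ Set.Ico (0 : ℝ) 1, |u - t| < ρ →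
      ∀ a ∈ A, |δ u a - δ t a| ≤ η) →
    ∃ φ : ℝ → E d → E d, (∀ x ∈ K, φ 0 x = x) ∧
      (∀ t ∈ Set.Ico (0 : ℝ) 1, ∀ η > 0, ∃ ρ > 0, ∀ u ∈ Set.Ico (0 : ℝ) 1, |u - t| < ρ →
        ∀ x ∈ K, dist (φ u x) (φ t x) ≤ η) ∧
      ∀ t ∈ Set.Ico (0 : ℝ) 1, ∀ x ∈ K, ∀ y ∈ K, s(x, y) ∈ A →
        dist (φ t x) (φ t y) = dist x y + δ t s(x, y)

/-- `K` can be partitioned into `m` sets of smaller diameter. -/
def Partitionable {d : ℕ} (K : Set (E d)) (m : ℕ) : Prop :=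
  ∃ P : Fin m → Set (E d), (⋃ i, P i) = K ∧ (∀ i j, i ≠ j → Disjoint (P i) (P j)) ∧
    ∀ i, Metric.diam (P i) < Metric.diam K

end Pool.Agent.W2helper32.BK
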