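import Pool.Agent.W2helper32.BK.Vec
import Pool.Agent.W2helper32.BK.Core

set_option autoImplicit false

namespace Pool.Agent.W2helper32.BK

open Finset Filter Topology

/-- identification of the coordinate space with `ℝ^4098`. -/
noncomputable def Φ : EuclideanSpace ℝ Ix ≃ₗᵢ[ℝ] E 4098 :=
  LinearIsometryEquiv.piLpCongrLeft 2 ℝ ℝ (Fintype.equivFinOfCardEq (by
    simp [Fintype.card_sum, Fintype.card_prod]))

theorem inner_Φ (x y : EuclideanSpace ℝ Ix) : inner ℝ (Φ x) (Φ y) = (inner ℝ x y : ℝ) :=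
  LinearIsometryEquiv.inner_map_map Φ x y

/-- the angles -/
noncomputable def th (i : ℕ) : ℝ := 1 / ((i : ℝ) + 1)

theorem th_pos (i : ℕ) : 0 < th i := by unfold th; positivity

theorem th_le (i : ℕ) : th i ≤ 1 := by
  unfold th
  rw [div_le_one (by positivity)]
  have : (0 : ℝ) ≤ i := by positivity
  linarith

theorem cos_th (i : ℕ) : 0 < Real.cos (th i) :=
  Real.cos_pos_of_mem_Ioo ⟨by have := th_pos i; have := Real.pi_gt_three; linarith,
    by have := th_le i; have := Real.pi_gt_three; linarith⟩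

theorem sin_th (i : ℕ) : 0 < Real.sin (th i) :=
  Real.sin_pos_of_pos_of_lt_pi (th_pos i) (by
    have := th_le i; have := Real.pi_gt_three; linarith)

/-- the first layer -/
def SS : Set (E 4098) := {x | ∃ (i : ℕ) (A : Finset (Fin 64)), A.card = 31 ∧ x = Φ (X (th i) A)}

theorem SS_ne : SS.Nonempty := by
  obtain ⟨A, -, hA⟩ := exists_subset_card_eq (s := (univ : Finset (Fin 64))) (n := 31)
    (by simp)
  exact ⟨_, 0, A, hA, rfl⟩

theorem he : inner ℝ (Φ e0) (Φ e0) = (1 : ℝ) := by rw [inner_Φ, norm_e0]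

theorem h1 : ∀ x ∈ SS, inner ℝ x x = (1 : ℝ) := by
  rintro x ⟨i, A, hA, rfl⟩
  rw [inner_Φ, inner_self_X]

theorem h0 : ∀ x ∈ SS, inner ℝ x (Φ e0) = (0 : ℝ) := by
  rintro x ⟨i, A, hA, rfl⟩
  rw [inner_Φ, inner_e0]

theorem hp : ∀ x ∈ SS, ∀ y ∈ SS, (0 : ℝ) < inner ℝ x y := by
  rintro x ⟨i, A, hA, rfl⟩ y ⟨j, B, hB, rfl⟩
  rw [inner_Φ, inner_X]
  have := mul_pos (sin_th i) (sin_th j)
  have h2 := mul_pos (cos_th i) (cos_th j)
  have h3 := mul_nonneg h2.le (sq_nonneg ((∑ a, sg A a * sg B a) / 64))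
  linarith

theorem hc (c : E 4098 → Fin 4099) : ∃ l, ∀ ε > 0, ∃ x ∈ SS, ∃ y ∈ SS, c x = l ∧ c y = l ∧
    inner ℝ x y < ε := by
  classical
  have h : ∀ i : ℕ, ∃ A B : Finset (Fin 64), A.card = 31 ∧ B.card = 31 ∧ (A ∩ B).card = 15 ∧
      c (Φ (X (th i) A)) = c (Φ (X (th i) B)) := fun i => fw_color fun A => c (Φ (X (th i) A))
  choose A B hA hB hAB hcc using h
  obtain ⟨l, hl⟩ := Finite.exists_infinite_fiber (fun i => c (Φ (X (th i) (A i))))
  refine ⟨l, fun ε hε => ?_⟩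
  have hlim : Tendsto (fun i : ℕ => Real.sin (th i) * Real.sin (th i)) atTop (𝓝 0) := by
    have h2 : Tendsto th atTop (𝓝 0) := tendsto_one_div_add_atTop_nhds_zero_nat
    have h3 : Tendsto (fun i => Real.sin (th i)) atTop (𝓝 0) := by
      have := (Real.continuous_sin.tendsto 0).comp h2
      simpa [Function.comp_def] using this
    simpa using h3.mul h3
  have hev : ∀ᶠ i in atTop, Real.sin (th i) * Real.sin (th i) < ε := hlim.eventually_lt_const hε
  have hinf : (((fun i => c (Φ (X (th i) (A i)))) ⁻¹' {l}) : Set ℕ).Infinite :=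
    Set.infinite_coe_iff.1 hl
  obtain ⟨N, hN⟩ := eventually_atTop.1 hev
  obtain ⟨i, hi, hNi⟩ := hinf.exists_gt N
  refine ⟨_, ⟨i, A i, hA i, rfl⟩, _, ⟨i, B i, hB i, rfl⟩, hi, (hcc i) ▸ hi, ?_⟩
  rw [inner_Φ, inner_X, sg_dot _ _ (hA i) (hB i), hAB i]
  have := hN i hNi.le
  norm_num
  linarith

/-- **Main theorem.** -/
theorem main : ∃ K : Set (E 4098), Bornology.IsBounded K ∧ K.Nontrivial ∧
    (∀ x ∈ K, ∃! y, y ∈ K ∧ dist x y = Metric.diam K) ∧ IsGeneral K (Diameters K) ∧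
    ¬ Partitionable K 4099 := by
  refine ⟨KK (Φ e0) SS, bdd he h1 h0 hp, ?_, unique_partner he h1 h0 hp SS_ne,
    general he h1 h0 hp SS_ne, not_partitionable he h1 h0 hp 4099 SS_ne hc⟩
  obtain ⟨x, hx⟩ := SS_ne
  refine ⟨x, Or.inl hx, par (Φ e0) x, Or.inr ⟨x, hx, rfl⟩, fun h => ?_⟩
  exact not_both he h1 h0 hp hx (h ▸ hx)

end Pool.Agent.W2helper32.BK
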