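import Pool.Agent.W2helper32.BK.Defs

set_option autoImplicit false

/-! Compact sets in which the diameters with a common endpoint make small angles. -/

namespace Pool.Agent.W2helper32.BK

open Metric Finset

section simplex
variable {d : ℕ}

/-- scaling constant -/
noncomputable def al (d : ℕ) : ℝ := Real.sqrt (((d : ℝ) + 1) / d)

/-- scaling constant -/
noncomputable def be (d : ℕ) : ℝ := (al d - 1 / Real.sqrt d) / d

/-- inner products with the vertices of a regular simplex -/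
noncomputable def aa (i : Fin (d + 1)) (u : E d) : ℝ :=
  Fin.cases (-(∑ j, u j) / Real.sqrt d) (fun j => al d * u j - be d * ∑ j, u j) i

theorem aa_zero (u : E d) : aa 0 u = -(∑ j, u j) / Real.sqrt d := rfl

theorem aa_succ (j : Fin d) (u : E d) : aa j.succ u = al d * u j - be d * ∑ j, u j := rfl

theorem aa_add (i : Fin (d + 1)) (u w : E d) : aa i (u + w) = aa i u + aa i w := by
  refine Fin.cases ?_ (fun j => ?_) i
  · simp only [aa_zero, PiLp.add_apply, sum_add_distrib]; ring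
  · simp only [aa_succ, PiLp.add_apply, sum_add_distrib]; ring

theorem aa_neg (i : Fin (d + 1)) (u : E d) : aa i (-u) = -aa i u := by
  refine Fin.cases ?_ (fun j => ?_) i
  · simp only [aa_zero, PiLp.neg_apply, sum_neg_distrib]; ring
  · simp only [aa_succ, PiLp.neg_apply, sum_neg_distrib]; ring

theorem aa_cont (i : Fin (d + 1)) : Continuous (aa i : E d → ℝ) := by
  refine Fin.cases ?_ (fun j => ?_) i
  · have : (aa 0 : E d → ℝ) = fun u => -(∑ j, u j) / Real.sqrt d := rfl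
    rw [this]; fun_prop
  · have : (aa j.succ : E d → ℝ) = fun u => al d * u j - be d * ∑ j, u j := rfl
    rw [this]; fun_prop

theorem aa_sum (hd : 1 ≤ d) (u : E d) : ∑ i, aa i u = 0 := by
  have hd0 : (0 : ℝ) < d := by exact_mod_cast hd
  have hs : 0 < Real.sqrt d := Real.sqrt_pos.2 hd0
  rw [Fin.sum_univ_succ, aa_zero]
  simp only [aa_succ, sum_sub_distrib, ← mul_sum, sum_const, card_univ, Fintype.card_fin,
    nsmul_eq_mul]
  unfold be
  field_simp
  ring

theorem al_sq (hd : 1 ≤ d) : al d ^ 2 = ((d : ℝ) + 1) / d := by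
  have hd0 : (0 : ℝ) < d := by exact_mod_cast hd
  unfold al; rw [Real.sq_sqrt (by positivity)]

theorem aa_sq (hd : 1 ≤ d) (u : E d) : ∑ i, aa i u ^ 2 = ((d : ℝ) + 1) / d * ‖u‖ ^ 2 := by
  have hd0 : (0 : ℝ) < d := by exact_mod_cast hd
  have hs : 0 < Real.sqrt d := Real.sqrt_pos.2 hd0
  have hs2 : Real.sqrt d ^ 2 = d := Real.sq_sqrt hd0.le
  have hn : ‖u‖ ^ 2 = ∑ j, u j ^ 2 := by
    rw [EuclideanSpace.norm_sq_eq]; simp
  have hb : (d : ℝ) * be d ^ 2 - 2 * al d * be d = -(1 / d) := by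
    have h1 : (d : ℝ) * be d = al d - 1 / Real.sqrt d := by unfold be; field_simp
    have h2 : (1 / Real.sqrt d) ^ 2 = 1 / (d : ℝ) := by rw [div_pow, hs2, one_pow]
    have h3 : (d : ℝ) * ((d : ℝ) * be d ^ 2 - 2 * al d * be d) = -1 := by
      have : (d : ℝ) * ((d : ℝ) * be d ^ 2 - 2 * al d * be d) =
          ((d : ℝ) * be d) ^ 2 - 2 * al d * ((d : ℝ) * be d) := by ring
      rw [this, h1]
      have h4 := al_sq hd
      have : (al d - 1 / Real.sqrt d) ^ 2 - 2 * al d * (al d - 1 / Real.sqrt d) =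
          (1 / Real.sqrt d) ^ 2 - al d ^ 2 := by ring
      rw [this, h2, h4]; field_simp; ring
    field_simp
    linarith
  rw [Fin.sum_univ_succ, aa_zero]
  set s : ℝ := ∑ j, u j with hsdef
  have h1 : ∀ j : Fin d, aa j.succ u ^ 2 =
      al d ^ 2 * u j ^ 2 - 2 * al d * be d * s * u j + be d ^ 2 * s ^ 2 := by
    intro j; rw [aa_succ, ← hsdef]; ring
  simp only [h1, sum_add_distrib, sum_sub_distrib, ← mul_sum, sum_const, card_univ,
    Fintype.card_fin, nsmul_eq_mul]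
  rw [← hsdef, ← hn, al_sq hd, div_pow, hs2]
  have h5 : 2 * al d * be d = (d : ℝ) * be d ^ 2 + 1 / d := by linarith
  rw [h5]
  ring

theorem aa_le (hd : 1 ≤ d) (i : Fin (d + 1)) (u : E d) : aa i u ^ 2 ≤ ‖u‖ ^ 2 := by
  classical
  have hd0 : (0 : ℝ) < d := by exact_mod_cast hd
  have h1 := aa_sum hd u
  have h2 := aa_sq hd u
  rw [← add_sum_erase _ _ (mem_univ i)] at h1 h2
  have h3 : (∑ j ∈ univ.erase i, aa j u) ^ 2 ≤
      ((univ.erase i).card : ℝ) * ∑ j ∈ univ.erase i, aa j u ^ 2 := sq_sum_le_card_mul_sum_sq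
  rw [card_erase_of_mem (mem_univ i), card_univ, Fintype.card_fin, Nat.add_sub_cancel] at h3
  have h4 : aa i u ^ 2 = (∑ j ∈ univ.erase i, aa j u) ^ 2 := by
    rw [show aa i u = -∑ j ∈ univ.erase i, aa j u by linarith]; ring
  have h5 : ∑ j ∈ univ.erase i, aa j u ^ 2 = ((d : ℝ) + 1) / d * ‖u‖ ^ 2 - aa i u ^ 2 := by
    linarith
  rw [h5, ← h4] at h3
  have h6 : (d : ℝ) * (((d : ℝ) + 1) / d * ‖u‖ ^ 2 - aa i u ^ 2) =
      ((d : ℝ) + 1) * ‖u‖ ^ 2 - d * aa i u ^ 2 := by field_simp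
  rw [h6] at h3
  nlinarith

theorem aa_abs (hd : 1 ≤ d) (i : Fin (d + 1)) (u : E d) : aa i u ≤ ‖u‖ :=
  (abs_le_of_sq_le_sq' (aa_le hd i u) (norm_nonneg u)).2

theorem aa_max (hd : 1 ≤ d) (u : E d) : ∃ i, ‖u‖ / d ≤ aa i u := by
  classical
  have hd0 : (0 : ℝ) < d := by exact_mod_cast hd
  rcases eq_or_ne u 0 with rfl | hu
  · refine ⟨0, ?_⟩
    simp [aa_zero]
  have hu0 : 0 < ‖u‖ := norm_pos_iff.2 hu
  by_contra hcon
  push Not at hcon
  have h1 := aa_sum hd u
  have h2 := aa_sq hd u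
  have h3 : ∀ i, (aa i u + ‖u‖) * (aa i u - ‖u‖ / d) ≤ 0 := by
    intro i
    have h4 := (abs_le_of_sq_le_sq' (aa_le hd i u) (norm_nonneg u)).1
    have h5 := hcon i
    exact mul_nonpos_of_nonneg_of_nonpos (by linarith) (by linarith)
  have h6 : ∑ i, (aa i u + ‖u‖) * (aa i u - ‖u‖ / d) = 0 := by
    have : ∀ i, (aa i u + ‖u‖) * (aa i u - ‖u‖ / d) =
        aa i u ^ 2 + (‖u‖ - ‖u‖ / d) * aa i u - ‖u‖ ^ 2 / d := by intro i; ring
    simp only [this, sum_add_distrib, sum_sub_distrib, ← mul_sum, sum_const, card_univ,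
      Fintype.card_fin, nsmul_eq_mul, h1, h2]
    push_cast
    ring
  have h7 := (sum_eq_zero_iff_of_nonpos (fun i _ => h3 i)).1 h6
  have h8 : ∀ i, aa i u = -‖u‖ := by
    intro i
    have := h7 i (mem_univ i)
    rcases mul_eq_zero.1 this with h | h
    · linarith
    · have := hcon i; linarith
  simp only [h8, sum_const, card_univ, Fintype.card_fin, nsmul_eq_mul] at h1
  have : (0 : ℝ) < ((d + 1 : ℕ) : ℝ) * ‖u‖ := by positivity
  linarith

end simplex

/-- Compact sets in which two points with a common partner are closer than `diam K / d`. -/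
theorem compact_part {d : ℕ} (hd : 1 ≤ d) (K : Set (E d)) (hK : IsCompact K) (hn : K.Nontrivial)
    (h : ∀ x ∈ K, ∀ y ∈ K, ∀ z ∈ K, dist x y = diam K → dist x z = diam K →
      dist y z < diam K / d) : Partitionable K (d + 1) := by
  classical
  have hd0 : (0 : ℝ) < d := by exact_mod_cast hd
  set D := diam K with hD
  have hb := hK.isBounded
  have hD0 : 0 < D := by
    obtain ⟨x, hx, y, hy, hxy⟩ := hn
    exact lt_of_lt_of_le (dist_pos.2 hxy) (dist_le_diam_of_mem hb hx hy)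
  have hle : ∀ x ∈ K, ∀ y ∈ K, dist x y ≤ D := fun x hx y hy => dist_le_diam_of_mem hb hx hy
  -- the compact sets
  have key : ∀ i : Fin (d + 1), ∃ δ > 0, ∀ x ∈ K, ∀ x' ∈ K, ∀ y ∈ K, ∀ y' ∈ K,
      dist x y / d ≤ aa i (x - y) → dist x' y' / d ≤ aa i (x' - y') →
      D - δ ≤ dist x y → D - δ ≤ dist x' y' → dist x x' < D - δ := by
    intro i
    set Z : Set ((E d × E d) × (E d × E d)) := ((K ×ˢ K) ×ˢ (K ×ˢ K)) ∩
      {p | dist p.1.1 p.2.1 / d ≤ aa i (p.1.1 - p.2.1) ∧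
        dist p.1.2 p.2.2 / d ≤ aa i (p.1.2 - p.2.2)} with hZ
    have hZc : IsCompact Z := by
      have c1 : Continuous fun p : (E d × E d) × (E d × E d) => dist p.1.1 p.2.1 / (d : ℝ) := by
        fun_prop
      have c2 : Continuous fun p : (E d × E d) × (E d × E d) => dist p.1.2 p.2.2 / (d : ℝ) := by
        fun_prop
      have c3 : Continuous fun p : (E d × E d) × (E d × E d) => aa i (p.1.1 - p.2.1) :=
        (aa_cont i).comp (by fun_prop)
      have c4 : Continuous fun p : (E d × E d) × (E d × E d) => aa i (p.1.2 - p.2.2) :=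
        (aa_cont i).comp (by fun_prop)
      exact ((hK.prod hK).prod (hK.prod hK)).inter_right
        ((isClosed_le c1 c3).and (isClosed_le c2 c4))
    set F : (E d × E d) × (E d × E d) → ℝ := fun p =>
      min (dist p.1.1 p.1.2) (min (dist p.1.1 p.2.1) (dist p.1.2 p.2.2)) with hF
    have hFc : Continuous F := by fun_prop
    have hlt : ∀ p ∈ Z, F p < D := by
      rintro ⟨⟨x, x'⟩, ⟨y, y'⟩⟩ ⟨⟨⟨hx, hx'⟩, ⟨hy, hy'⟩⟩, h1, h2⟩
      simp only at h1 h2 hx hx' hy hy'
      by_contra hcon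
      push Not at hcon
      simp only [hF, le_min_iff] at hcon
      obtain ⟨c1, c2, c3⟩ := hcon
      have e1 : dist x x' = D := le_antisymm (hle _ hx _ hx') c1
      have e2 : dist x y = D := le_antisymm (hle _ hx _ hy) c2
      have e3 : dist x' y' = D := le_antisymm (hle _ hx' _ hy') c3
      have g1 := h x hx x' hx' y hy e1 e2
      have g2 := h x' hx' x hx y' hy' (by rw [dist_comm]; exact e1) e3
      have g3 : aa i (x - y) + aa i (x' - y') = aa i (x' - y) + aa i (x - y') := by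
        rw [← aa_add, ← aa_add]; congr 1; abel
      have g4 := aa_abs hd i (x' - y)
      have g5 := aa_abs hd i (x - y')
      rw [← dist_eq_norm] at g4 g5
      rw [e2] at h1
      rw [e3] at h2
      linarith
    rcases Z.eq_empty_or_nonempty with hZe | hZn
    · refine ⟨1, one_pos, fun x hx x' hx' y hy y' hy' h1 h2 _ _ => ?_⟩
      exfalso
      have : ((x, x'), (y, y')) ∈ Z := ⟨⟨⟨hx, hx'⟩, ⟨hy, hy'⟩⟩, h1, h2⟩
      rw [hZe] at this
      exact this
    · obtain ⟨p, hp, hmax⟩ := hZc.exists_isMaxOn hZn hFc.continuousOn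
      have hp' := hlt p hp
      refine ⟨(D - F p) / 2, by linarith, fun x hx x' hx' y hy y' hy' h1 h2 h3 h4 => ?_⟩
      have hz : ((x, x'), (y, y')) ∈ Z := ⟨⟨⟨hx, hx'⟩, ⟨hy, hy'⟩⟩, h1, h2⟩
      have h5 : F ((x, x'), (y, y')) ≤ F p := hmax hz
      by_contra hcon
      push Not at hcon
      have : D - (D - F p) / 2 ≤ F ((x, x'), (y, y')) := le_min hcon (le_min h3 h4)
      linarith
  choose δf hδf0 hδf using key
  obtain ⟨δ, hδ0, hδle⟩ : ∃ δ > 0, ∀ i, δ ≤ δf i := by
    refine ⟨univ.inf' ⟨0, mem_univ 0⟩ δf, ?_, fun i => inf'_le _ (mem_univ i)⟩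
    exact (lt_inf'_iff _).2 fun i _ => hδf0 i
  -- colouring
  have hcol : ∀ x : E d, ∃ i : Fin (d + 1), x ∈ K → (∀ y ∈ K, dist x y < D - δ) ∨
      ∃ y ∈ K, D - δ ≤ dist x y ∧ dist x y / d ≤ aa i (x - y) := by
    intro x
    by_cases hx : ∃ y ∈ K, D - δ ≤ dist x y
    · obtain ⟨y, hy, hxy⟩ := hx
      obtain ⟨i, hi⟩ := aa_max hd (x - y)
      rw [← dist_eq_norm] at hi
      exact ⟨i, fun _ => Or.inr ⟨y, hy, hxy, hi⟩⟩
    · push Not at hx
      exact ⟨0, fun _ => Or.inl hx⟩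
  choose c hc using hcol
  refine ⟨fun i => {x | x ∈ K ∧ c x = i}, ?_, ?_, ?_⟩
  · ext x; simp
  · intro i j hij
    rw [Set.disjoint_left]
    rintro x ⟨-, h1⟩ ⟨-, h2⟩
    exact hij (h1.symm.trans h2)
  · intro i
    have hfin : ∀ x ∈ {x | x ∈ K ∧ c x = i}, ∀ y ∈ {x | x ∈ K ∧ c x = i},
        dist x y ≤ max (D - δ) 0 := by
      rintro x ⟨hx, hcx⟩ x' ⟨hx', hcx'⟩
      refine le_max_of_le_left ?_
      rcases hc x hx with h1 | ⟨y, hy, h1, h2⟩
      · exact (h1 x' hx').le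
      rcases hc x' hx' with h3 | ⟨y', hy', h3, h4⟩
      · rw [dist_comm]; exact (h3 x hx).le
      rw [hcx] at h2
      rw [hcx'] at h4
      by_contra hcon
      push Not at hcon
      have := hδf i x hx x' hx' y hy y' hy' h2 h4 (by linarith [hδle i]) (by linarith [hδle i])
      have := hδle i
      linarith
    exact lt_of_le_of_lt (diam_le_of_forall_dist_le (le_max_right _ _) hfin)
      (max_lt (by linarith) hD0)

end Pool.Agent.W2helper32.BK
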