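import Mathlib
import Pool.Agent.Helper144.L1.FW

set_option autoImplicit false

/-! The Kahn–Kalai vectors in dimension 64 * 64 (+ 2), Frankl–Wilson with q = 16. -/

namespace Pool.Agent.W2helper32.BK

open Finset

theorem choose_num : 4099 * (64 : ℕ).choose 15 < (64 : ℕ).choose 31 := by
  rw [Nat.choose_eq_factorial_div_factorial (by norm_num),
    Nat.choose_eq_factorial_div_factorial (by norm_num)]
  norm_num [Nat.factorial]

/-- every colouring of the 31-subsets of a 64-set with 4099 colours has two different sets of the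
same colour which meet in exactly 15 elements. -/
theorem fw_color (c : Finset (Fin 64) → Fin 4099) : ∃ A B : Finset (Fin 64),
    A.card = 31 ∧ B.card = 31 ∧ (A ∩ B).card = 15 ∧ c A = c B := by
  classical
  by_contra hcon
  push Not at hcon
  have hF : ∀ l : Fin 4099, ((powersetCard 31 (univ : Finset (Fin 64))).filter
      (fun A => c A = l)).card ≤ (64 : ℕ).choose 15 := by
    intro l
    have := Pool.Agent.Helper144.L1.frankl_wilson 2 4
      ((powersetCard 31 (univ : Finset (Fin 64))).filter (fun A => c A = l)) (by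
        intro A hA
        rw [mem_filter, mem_powersetCard] at hA
        exact hA.1.2) (by
        intro A hA B hB hAB h15
        rw [mem_filter, mem_powersetCard] at hA hB
        exact hcon A B hA.1.2 hB.1.2 h15 (hA.2.trans hB.2.symm))
    simpa using this
  have h1 : (powersetCard 31 (univ : Finset (Fin 64))).card =
      ∑ l : Fin 4099, ((powersetCard 31 (univ : Finset (Fin 64))).filter
      (fun A => c A = l)).card := card_eq_sum_card_fiberwise fun A _ => mem_univ (c A)
  rw [card_powersetCard, card_univ, Fintype.card_fin] at h1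
  have h2 : ∑ l : Fin 4099, ((powersetCard 31 (univ : Finset (Fin 64))).filter
      (fun A => c A = l)).card ≤ ∑ _l : Fin 4099, (64 : ℕ).choose 15 :=
    sum_le_sum fun l _ => hF l
  rw [sum_const, card_univ, Fintype.card_fin, smul_eq_mul] at h2
  have := choose_num
  omega

/-- sign vector of a set -/
def sg (A : Finset (Fin 64)) (a : Fin 64) : ℝ := if a ∈ A then 1 else -1

theorem sg_dot (A B : Finset (Fin 64)) (hA : A.card = 31) (hB : B.card = 31) :
    ∑ a, sg A a * sg B a = 4 * ((A ∩ B).card : ℝ) - 60 := by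
  have h : ∀ a, sg A a * sg B a = 4 * (if a ∈ A ∩ B then (1 : ℝ) else 0) -
      2 * (if a ∈ A then (1 : ℝ) else 0) - 2 * (if a ∈ B then (1 : ℝ) else 0) + 1 := by
    intro a
    unfold sg
    by_cases h1 : a ∈ A <;> by_cases h2 : a ∈ B <;> simp [h1, h2] <;> norm_num
  simp only [h, sum_add_distrib, sum_sub_distrib, ← mul_sum]
  simp only [sum_ite_mem, univ_inter, sum_const, card_univ, Fintype.card_fin, nsmul_eq_mul, mul_one,
    hA, hB]
  norm_num
  ring

theorem sg_self (A : Finset (Fin 64)) : ∑ a, sg A a * sg A a = 64 := by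
  have h : ∀ a, sg A a * sg A a = 1 := by
    intro a; unfold sg; split_ifs <;> norm_num
  simp [h]

/-- index set of the coordinates -/
abbrev Ix : Type := (Fin 64 × Fin 64) ⊕ Fin 2

/-- the vector `X θ A` -/
noncomputable def X (θ : ℝ) (A : Finset (Fin 64)) : EuclideanSpace ℝ Ix :=
  WithLp.toLp 2 (Sum.elim (fun ab => Real.cos θ * (sg A ab.1 * sg A ab.2) / 64) ![Real.sin θ, 0])

/-- the last unit vector -/
noncomputable def e0 : EuclideanSpace ℝ Ix := WithLp.toLp 2 (Sum.elim (fun _ => 0) ![0, 1])

theorem inner_X (θ θ' : ℝ) (A B : Finset (Fin 64)) :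
    inner ℝ (X θ A) (X θ' B) =
      Real.cos θ * Real.cos θ' * ((∑ a, sg A a * sg B a) / 64) ^ 2 + Real.sin θ * Real.sin θ' := by
  simp only [X, PiLp.inner_apply, Fintype.sum_sum_type, Sum.elim_inl, Sum.elim_inr,
    Fin.sum_univ_two, RCLike.inner_apply, conj_trivial]
  have h1 : ∑ x : Fin 64 × Fin 64, Real.cos θ' * (sg B x.1 * sg B x.2) / 64 *
      (Real.cos θ * (sg A x.1 * sg A x.2) / 64) =
      Real.cos θ * Real.cos θ' * ((∑ a, sg A a * sg B a) / 64) ^ 2 := by
    rw [div_pow, sq (∑ a, sg A a * sg B a), sum_mul_sum, Fintype.sum_prod_type, sum_div,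
      mul_sum]
    refine sum_congr rfl fun a _ => ?_
    rw [sum_div, mul_sum]
    refine sum_congr rfl fun b _ => ?_
    ring
  rw [h1]
  simp
  ring

theorem inner_e0 (θ : ℝ) (A : Finset (Fin 64)) : inner ℝ (X θ A) e0 = 0 := by
  simp [X, e0, PiLp.inner_apply, Fintype.sum_sum_type, Fin.sum_univ_two]

theorem norm_e0 : inner ℝ e0 e0 = (1 : ℝ) := by
  rw [PiLp.inner_apply]
  simp [e0, Fintype.sum_sum_type, Fin.sum_univ_two]

theorem inner_self_X (θ : ℝ) (A : Finset (Fin 64)) : inner ℝ (X θ A) (X θ A) = (1 : ℝ) := by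
  rw [inner_X, sg_self]
  have := Real.sin_sq_add_cos_sq θ
  norm_num
  nlinarith

end Pool.Agent.W2helper32.BK
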